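import Mathlib
import Pool.Agent.Helper18.SK.Defs

set_option autoImplicit false

namespace Pool.Agent.Helper26.SK

open Pool.Agent.Helper18.SK

theorem walk_perm {V E : Type} (src tgt : E → V) : ∀ (l : List E) (p q : V),
    IsWalk src tgt p q l → (q :: l.map src).Perm (p :: l.map tgt) := by
  intro l
  induction l with
  | nil =>
    intro p q h
    have h' : p = q := h
    subst h'
    exact List.Perm.refl _
  | cons e l ih =>
    intro p q h
    obtain ⟨h1, h2⟩ := h
    have h3 := ih (tgt e) q h2
    rw [List.map_cons, List.map_cons, h1]
    exact (List.Perm.swap p q (l.map src)).trans (List.Perm.cons p h3)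

theorem count_src {α : Type} [Fintype α] [DecidableEq α] (k : ℕ) (hk : 1 ≤ k) (v : List α)
    (hv : v.length = k - 1) : ∀ l : List (List α), (∀ x ∈ l, x.length = k) →
    (l.map (bsrc k)).count v = ∑ a : α, l.count (v ++ [a]) := by
  intro l
  induction l with
  | nil => intro _; simp
  | cons x l ih =>
    intro hl
    have hx : x.length = k := hl x (List.mem_cons_self)
    have ih' := ih (fun y hy => hl y (List.mem_cons_of_mem _ hy))
    rw [List.map_cons, List.count_cons, ih']
    have hsum : ∑ a : α, (x :: l).count (v ++ [a]) =
        ∑ a : α, l.count (v ++ [a]) + ∑ a : α, (if x = v ++ [a] then 1 else 0) := by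
      rw [← Finset.sum_add_distrib]
      apply Finset.sum_congr rfl
      intro a _
      rw [List.count_cons]
      simp
    rw [hsum]
    congr 1
    have hne : x ≠ [] := by
      rintro rfl
      simp at hx
      omega
    have hdecomp : x = x.take (k - 1) ++ [x.getLast hne] := by
      have h1 := List.dropLast_append_getLast hne
      rw [List.dropLast_eq_take, hx] at h1
      exact h1.symm
    by_cases h : bsrc k x = v
    · have hxv : x = v ++ [x.getLast hne] := by
        rw [← h]; exact hdecomp
      have : (∑ a : α, (if x = v ++ [a] then 1 else 0)) =
          ∑ a : α, (if x.getLast hne = a then 1 else 0) := by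
        apply Finset.sum_congr rfl
        intro a _
        have : (x = v ++ [a]) ↔ (x.getLast hne = a) := by
          constructor
          · intro e
            have h2 := List.append_cancel_left (hxv.symm.trans e)
            simpa using h2
          · intro e
            rw [← e]
            exact hxv
        simp only [this]
      rw [this]
      simp [h]
    · have : ∀ a : α, x ≠ v ++ [a] := by
        intro a e
        apply h
        unfold bsrc
        rw [e]
        rw [List.take_append_of_le_length (by omega), List.take_of_length_le (by omega)]
      simp [this, h]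

theorem count_tgt {α : Type} [Fintype α] [DecidableEq α] (k : ℕ) (hk : 1 ≤ k) (v : List α) :
    ∀ l : List (List α), (∀ x ∈ l, x.length = k) →
    (l.map btgt).count v = ∑ b : α, l.count (b :: v) := by
  intro l
  induction l with
  | nil => intro _; simp
  | cons x l ih =>
    intro hl
    have hx : x.length = k := hl x (List.mem_cons_self)
    have ih' := ih (fun y hy => hl y (List.mem_cons_of_mem _ hy))
    rw [List.map_cons, List.count_cons, ih']
    have hsum : ∑ b : α, (x :: l).count (b :: v) =
        ∑ b : α, l.count (b :: v) + ∑ b : α, (if x = b :: v then 1 else 0) := by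
      rw [← Finset.sum_add_distrib]
      apply Finset.sum_congr rfl
      intro a _
      rw [List.count_cons]
      simp
    rw [hsum]
    congr 1
    cases x with
    | nil => simp at hx; omega
    | cons c y =>
      unfold btgt
      by_cases h : y = v
      · subst h
        simp
      · simp [h]

theorem balance {m : ℕ} (k : ℕ) (hk : 1 ≤ k) (p : List (Fin (m + 1)))
    (l : List (List (Fin (m + 1)))) (hl : ∀ x ∈ l, x.length = k)
    (hw : IsWalk (bsrc k) btgt p p l) (v : List (Fin (m + 1))) (hv : v.length = k - 1) :
    ∑ a : Fin (m + 1), l.count (v ++ [a]) = ∑ b : Fin (m + 1), l.count (b :: v) := by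
  have h1 := walk_perm (bsrc k) btgt l p p hw
  have h2 := (List.Perm.cons_inv h1).count_eq v
  rw [count_src k hk v hv l hl, count_tgt k hk v l hl] at h2
  exact h2

theorem tree_aux (m k n : ℕ) (p : List (Fin (m + 1))) (l : List (List (Fin (m + 1))))
    (hk : 1 ≤ k) (hl : ∀ x ∈ l, x.length = k) (hw : IsWalk (bsrc k) btgt p p l)
    (h : ∀ x : List (Fin (m + 1)), x.length = k →
      (∀ v : List (Fin (m + 1)), v ≠ List.replicate (k - 1) 0 → x ≠ v ++ [0]) → n ∣ l.count x) :
    ∀ (t : ℕ) (v w : List (Fin (m + 1))) (c : Fin (m + 1)), v.length = k - 1 → c ≠ 0 →
      v = w ++ [c] ++ List.replicate t 0 → n ∣ l.count (v ++ [0]) := by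
  intro t
  induction t with
  | zero =>
    intro v w c hv hc hvw
    have hb := balance k hk p l hl hw v hv
    have h1 : n ∣ ∑ b : Fin (m + 1), l.count (b :: v) := by
      apply Finset.dvd_sum
      intro b _
      apply h
      · rw [List.length_cons, hv]; omega
      · intro u _ e
        rw [hvw] at e
        simp only [List.replicate_zero, List.append_nil] at e
        have e2 : (b :: w) ++ [c] = u ++ [0] := e
        have := List.append_inj_right' e2 rfl
        simp at this
        exact hc this
    have h2 : n ∣ ∑ a ∈ Finset.univ.erase (0 : Fin (m + 1)), l.count (v ++ [a]) := by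
      apply Finset.dvd_sum
      intro a ha
      apply h
      · rw [List.length_append, hv]; simp; omega
      · intro u _ e
        have := List.append_inj_right' e rfl
        simp at this
        exact (Finset.ne_of_mem_erase ha) this
    rw [← Finset.add_sum_erase Finset.univ _ (Finset.mem_univ (0 : Fin (m + 1)))] at hb
    rw [← hb] at h1
    exact (Nat.dvd_add_left h2).mp h1
  | succ t ih =>
    intro v w c hv hc hvw
    have hb := balance k hk p l hl hw v hv
    have h1 : n ∣ ∑ b : Fin (m + 1), l.count (b :: v) := by
      apply Finset.dvd_sum
      intro b _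
      have e : b :: v = ((b :: w) ++ [c] ++ List.replicate t 0) ++ [0] := by
        rw [hvw, List.replicate_succ']
        simp
      rw [e]
      apply ih ((b :: w) ++ [c] ++ List.replicate t 0) (b :: w) c _ hc rfl
      have hlen : (b :: v).length = k := by rw [List.length_cons, hv]; omega
      rw [e, List.length_append] at hlen
      simp only [List.length_cons, List.length_nil] at hlen
      simp only [List.length_append, List.length_cons, List.length_replicate, List.length_nil] at hlen ⊢
      omega
    have h2 : n ∣ ∑ a ∈ Finset.univ.erase (0 : Fin (m + 1)), l.count (v ++ [a]) := by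
      apply Finset.dvd_sum
      intro a ha
      apply h
      · rw [List.length_append, hv]; simp; omega
      · intro u _ e
        have := List.append_inj_right' e rfl
        simp at this
        exact (Finset.ne_of_mem_erase ha) this
    rw [← Finset.add_sum_erase Finset.univ _ (Finset.mem_univ (0 : Fin (m + 1)))] at hb
    rw [← hb] at h1
    exact (Nat.dvd_add_left h2).mp h1

/-- a word which is not `0 … 0` has a last nonzero letter -/
theorem exists_last_ne {m : ℕ} (v : List (Fin (m + 1))) (hv : v ≠ List.replicate v.length 0) :
    ∃ (t : ℕ) (w : List (Fin (m + 1))) (c : Fin (m + 1)), c ≠ 0 ∧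
      v = w ++ [c] ++ List.replicate t 0 := by
  induction v using List.reverseRecOn with
  | nil => simp at hv
  | append_singleton v a ih =>
    by_cases ha : a = 0
    · subst ha
      have hv' : v ≠ List.replicate v.length 0 := by
        intro e
        apply hv
        rw [List.length_append, List.length_singleton, List.replicate_succ', ← e]
      obtain ⟨t, w, c, hc, hvw⟩ := ih hv'
      refine ⟨t + 1, w, c, hc, ?_⟩
      rw [List.replicate_succ', ← List.append_assoc, ← hvw]
    · exact ⟨0, v, a, ha, by simp⟩

theorem tr : GTree := by
  intro m k n p l hk _ hl hw h x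
  by_cases hx : x.length = k
  · by_cases hform : ∃ v : List (Fin (m + 1)), v ≠ List.replicate (k - 1) 0 ∧ x = v ++ [0]
    · obtain ⟨v, hv, rfl⟩ := hform
      have hlen : v.length = k - 1 := by
        rw [List.length_append] at hx
        simp at hx
        omega
      obtain ⟨t, w, c, hc, hvw⟩ := exists_last_ne v (by rw [hlen]; exact hv)
      exact tree_aux m k n p l hk hl hw h t v w c hlen hc hvw
    · apply h x hx
      intro v hv e
      exact hform ⟨v, hv, e⟩
  · have : l.count x = 0 := by
      rw [List.count_eq_zero]
      intro hmem
      exact hx (hl x hmem)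
    rw [this]
    exact dvd_zero n

end Pool.Agent.Helper26.SK
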